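import Pool.Agent.H39.Newt.Stmts

/-!
# Project NEWTON: finitely many rigid weights up to scaling
-/

set_option autoImplicit false

namespace Pool.Newt

open MvPolynomial Pool.Agent.H39.MonoR Pool.Agent.H75.Mono

/-- Two rigid weights with the same face and the same support are proportional. -/
theorem RAY_prop {σ I : Type} [Fintype σ] [Fintype I] [Nonempty I] (a : I → σ → ℕ)
    (w w' : σ → ℕ) (hw : Rigid a w) (hf : face a w' = face a w) (hs : ∀ l, w l = 0 ↔ w' l = 0)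
    (j : σ) : Nw a w' * w j = Nw a w * w' j := by
  classical
  by_cases hj : w j = 0
  · simp [hj, (hs j).1 hj]
  have key := Fintype.linearIndependent_iff.1 hw
    (fun l => (Nw a w' : ℚ) * (w l : ℚ) - (Nw a w : ℚ) * (w' l : ℚ)) ?_ ⟨j, hj⟩
  · have h2 : (Nw a w' : ℚ) * (w j : ℚ) = (Nw a w : ℚ) * (w' j : ℚ) := sub_eq_zero.1 key
    exact_mod_cast h2
  · ext ⟨i, hi⟩
    have h1 : dot w (a i) = Nw a w := (mem_face_iff a w i).1 hi
    have h2 : dot w' (a i) = Nw a w' := (mem_face_iff a w' i).1 (hf ▸ hi)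
    simp only [Finset.sum_apply, Pi.smul_apply, smul_eq_mul, Pi.zero_apply]
    have h3 : ∑ l : {l // w l ≠ 0}, ((Nw a w' : ℚ) * (w l : ℚ) - (Nw a w : ℚ) * (w' l : ℚ)) *
        (a i l : ℚ) = ∑ l : σ, ((Nw a w' : ℚ) * (w l : ℚ) - (Nw a w : ℚ) * (w' l : ℚ)) *
          (a i l : ℚ) := by
      rw [← Finset.sum_subtype (Finset.univ.filter fun l => w l ≠ 0) (by simp)
        (fun l => ((Nw a w' : ℚ) * (w l : ℚ) - (Nw a w : ℚ) * (w' l : ℚ)) * (a i l : ℚ))]
      refine Finset.sum_filter_of_ne fun l _ hl h0 => hl ?_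
      rw [h0, (hs l).1 h0]
      simp
    rw [h3]
    have h4 : (dot w (a i) : ℚ) = ∑ l, (w l : ℚ) * (a i l : ℚ) := by simp [dot]
    have h5 : (dot w' (a i) : ℚ) = ∑ l, (w' l : ℚ) * (a i l : ℚ) := by simp [dot]
    have h6 : ∑ l : σ, ((Nw a w' : ℚ) * (w l : ℚ) - (Nw a w : ℚ) * (w' l : ℚ)) * (a i l : ℚ) =
        (Nw a w' : ℚ) * ∑ l, (w l : ℚ) * (a i l : ℚ) -
          (Nw a w : ℚ) * ∑ l, (w' l : ℚ) * (a i l : ℚ) := by
      rw [Finset.mul_sum, Finset.mul_sum, ← Finset.sum_sub_distrib]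
      exact Finset.sum_congr rfl fun l _ => by ring
    rw [h6, ← h4, ← h5, h1, h2]
    ring

theorem sRay : SRay := by
  classical
  intro σ I _ _ _ a
  set key : (σ → ℕ) → Set I × Set σ := fun w => (face a w, {l | w l = 0}) with hkey
  set P : (σ → ℕ) → Prop := fun w => Rigid a w ∧ 0 < Nw a w with hP
  have hfin : (Set.univ : Set (Set I × Set σ)).Finite := Set.finite_univ
  set T : Finset (Set I × Set σ) := hfin.toFinset.filter fun x => ∃ w, P w ∧ key w = x with hT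
  have hch : ∀ x : Set I × Set σ, ∃ w, (∃ w, P w ∧ key w = x) → P w ∧ key w = x := by
    intro x
    by_cases h : ∃ w, P w ∧ key w = x
    · obtain ⟨w, hw⟩ := h
      exact ⟨w, fun _ => hw⟩
    · exact ⟨0, fun h' => absurd h' h⟩
  choose rep hrep using hch
  refine ⟨T.image rep, ?_, ?_⟩
  · intro w hw
    obtain ⟨x, hx, rfl⟩ := Finset.mem_image.1 hw
    exact (hrep x (Finset.mem_filter.1 hx).2).1
  · intro w hw hN
    have hx : ∃ w', P w' ∧ key w' = key w := ⟨w, ⟨hw, hN⟩, rfl⟩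
    obtain ⟨h1, h2⟩ := hrep (key w) hx
    refine ⟨rep (key w), Finset.mem_image_of_mem _ (Finset.mem_filter.2 ⟨by simp, hx⟩), ?_, ?_⟩
    · exact congrArg Prod.fst h2
    · refine ⟨Nw a (rep (key w)), Nw a w, h1.2, hN, fun j => ?_⟩
      refine RAY_prop a w _ hw (congrArg Prod.fst h2) (fun l => ?_) j
      have h3 : {l | rep (key w) l = 0} = {l | w l = 0} := congrArg Prod.snd h2
      have h4 : l ∈ {l | rep (key w) l = 0} ↔ l ∈ {l | w l = 0} := by rw [h3]
      exact h4.symm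

end Pool.Newt
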