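import Pool.Agent.H39.Newt.Stmts

/-!
# Project NEWTON: good weights give roots of the Bernstein-Sato polynomial
-/

set_option autoImplicit false

namespace Pool.Newt

open MvPolynomial Pool.Agent.H39.MonoR Pool.Agent.H75.Mono

/-- the point `t0` -/
theorem ROO_t0 {σ I : Type} [Fintype σ] [Fintype I] (a : I → σ → ℕ) (w : σ → ℕ) (s : Finset I)
    (hli : LinearIndependent ℚ (fun (l : {l // w l ≠ 0}) (i : s) => (a i l : ℚ))) :
    ∃ t0 : I → ℚ, (∀ i, i ∉ s → t0 i = 0) ∧
      ∀ l, w l ≠ 0 → ∑ i, (a i l : ℚ) * t0 i = -1 := by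
  classical
  set v : {l // w l ≠ 0} → (s → ℚ) := fun l i => (a i l : ℚ) with hv
  obtain ⟨g, hg⟩ := LinearMap.exists_leftInverse_of_injective
    (Finsupp.linearCombination ℚ v) (LinearMap.ker_eq_bot.2 hli)
  set Λ : (s → ℚ) →ₗ[ℚ] ℚ :=
    (Finsupp.linearCombination ℚ (fun _ : {l // w l ≠ 0} => (-1 : ℚ))) ∘ₗ g with hΛ
  have hΛv : ∀ l, Λ (v l) = -1 := by
    intro l
    have h1 : g (v l) = Finsupp.single l 1 := by
      have := LinearMap.congr_fun hg (Finsupp.single l 1)
      simpa using this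
    rw [hΛ, LinearMap.comp_apply, h1]
    simp
  refine ⟨fun i => if h : i ∈ s then Λ (Pi.single ⟨i, h⟩ 1) else 0, fun i hi => by simp [hi], ?_⟩
  intro l hl
  have h2 : v ⟨l, hl⟩ = ∑ i : s, (a i l : ℚ) • (Pi.single i (1 : ℚ) : s → ℚ) := by
    ext i
    simp [hv, Finset.sum_apply, Pi.single_apply]
  have h3 := hΛv ⟨l, hl⟩
  rw [h2, map_sum] at h3
  rw [← h3]
  simp only [map_smul, smul_eq_mul]
  rw [← Finset.sum_subset (Finset.subset_univ s)]
  · rw [← Finset.sum_coe_sort s]
    refine Finset.sum_congr rfl fun i _ => ?_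
    simp
  · intro i _ hi
    simp [hi]

section Comb

variable {σ I : Type} [Fintype σ] [Fintype I] [DecidableEq I]

/-- the index set `D` -/
abbrev ROO_D (w : σ → ℕ) (s : Finset I) (t0 : I → ℚ) : Type :=
  {l // w l ≠ 0} ⊕ ({i // i ∉ s} ⊕ {i // i ∈ Zs t0 0})

/-- the vectors `β` -/
def ROO_β (a : I → σ → ℕ) (w : σ → ℕ) (s : Finset I) (t0 : I → ℚ) :
    ROO_D w s t0 → I → ℤ :=
  Sum.elim (fun l i => (a i l : ℤ)) (Sum.elim (fun k i => if i = k then -1 else 0)
    (fun k i => if i = k then -1 else 0))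

/-- the subset `S` of a functional -/
noncomputable def ROO_S (a : I → σ → ℕ) (w : σ → ℕ) (s : Finset I) (t0 : I → ℚ) (ψ : I → ℤ) :
    Finset (ROO_D w s t0) :=
  Finset.univ.filter fun d => Sum.elim (fun l : {l // w l ≠ 0} => decide (0 < ∑ i, ψ i * (a i l : ℤ)))
    (Sum.elim (fun k : {i // i ∉ s} => decide ((k : I) ∈ Zs t0 ψ))
      (fun k : {i // i ∈ Zs t0 0} => decide ((k : I) ∈ Zs t0 ψ))) d = true

theorem ROO_lf_single (k : I) : lf (fun i => if i = k then (-1 : ℤ) else 0) = -(X k) := by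
  unfold lf
  rw [Finset.sum_eq_single k]
  · simp
  · intro i _ hi
    simp [hi]
  · simp

/-- divisibility -/
theorem ROO_dvd (a : I → σ → ℕ) (w : σ → ℕ) (s : Finset I) (t0 : I → ℚ)
    (hP : ∀ i ∈ Zs t0 0, i ∈ s) (ψ : I → ℤ) :
    (∏ d ∈ ROO_S a w s t0 ψ, lf (ROO_β a w s t0 d) : MvPolynomial I ℚ) ∣
      (∏ i ∈ Zs t0 ψ, X i) * ∏ l ∈ (Finset.univ.filter fun l => w l ≠ 0).filter
        (fun l => 0 < ∑ i, ψ i * (a i l : ℤ)), lf (fun i => (a i l : ℤ)) := by
  unfold ROO_S
  rw [Finset.prod_filter, Fintype.prod_sum_type, Fintype.prod_sum_type, mul_comm]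
  refine mul_dvd_mul ?_ ?_
  · have h1 : (∏ x : {i // i ∉ s}, if x.1 ∈ Zs t0 ψ then (X x.1 : MvPolynomial I ℚ) else 1) =
        ∏ i ∈ (Zs t0 ψ).filter (fun i => i ∉ s), X i := by
      rw [← Finset.prod_subtype (Finset.univ.filter fun i => i ∉ s) (by simp)
        (fun i => if i ∈ Zs t0 ψ then (X i : MvPolynomial I ℚ) else 1), ← Finset.prod_filter,
        Finset.filter_filter]
      refine Finset.prod_congr ?_ fun _ _ => rfl
      ext i
      simp [and_comm]
    have h2 : (∏ x : {i // i ∈ Zs t0 0}, if x.1 ∈ Zs t0 ψ then (X x.1 : MvPolynomial I ℚ) else 1) =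
        ∏ i ∈ (Zs t0 ψ).filter (fun i => i ∈ Zs t0 0), X i := by
      rw [← Finset.prod_subtype (Zs t0 0) (by simp)
        (fun i => if i ∈ Zs t0 ψ then (X i : MvPolynomial I ℚ) else 1), ← Finset.prod_filter]
      refine Finset.prod_congr ?_ fun _ _ => rfl
      ext i
      simp [and_comm]
    have h3 : (∏ i ∈ (Zs t0 ψ).filter (fun i => i ∉ s), (X i : MvPolynomial I ℚ)) *
        ∏ i ∈ (Zs t0 ψ).filter (fun i => i ∈ Zs t0 0), X i ∣ ∏ i ∈ Zs t0 ψ, X i := by
      rw [← Finset.prod_union]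
      · refine Finset.prod_dvd_prod_of_subset _ _ _ ?_
        intro i hi
        rcases Finset.mem_union.1 hi with h | h
        · exact (Finset.mem_filter.1 h).1
        · exact (Finset.mem_filter.1 h).1
      · rw [Finset.disjoint_left]
        intro i h1 h2
        exact (Finset.mem_filter.1 h1).2 (hP i (Finset.mem_filter.1 h2).2)
    refine dvd_trans ?_ h3
    rw [← h1, ← h2]
    refine mul_dvd_mul ?_ ?_
    · refine Finset.prod_dvd_prod_of_dvd _ _ fun x _ => ?_
      by_cases hx : x.1 ∈ Zs t0 ψ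
      · simp only [ROO_β, Sum.elim_inr, Sum.elim_inl, hx, decide_true, if_true]
        rw [ROO_lf_single]
        exact (neg_dvd).2 dvd_rfl
      · simp [hx]
    · refine Finset.prod_dvd_prod_of_dvd _ _ fun x _ => ?_
      by_cases hx : x.1 ∈ Zs t0 ψ
      · simp only [ROO_β, Sum.elim_inr, hx, decide_true, if_true]
        rw [ROO_lf_single]
        exact (neg_dvd).2 dvd_rfl
      · simp [hx]
  · have h1 : (∏ x : {l // w l ≠ 0}, if 0 < ∑ i, ψ i * (a i x : ℤ) then
        (lf (fun i => (a i x : ℤ)) : MvPolynomial I ℚ) else 1) =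
        ∏ l ∈ (Finset.univ.filter fun l => w l ≠ 0).filter
          (fun l => 0 < ∑ i, ψ i * (a i l : ℤ)), lf (fun i => (a i l : ℤ)) := by
      rw [← Finset.prod_subtype (Finset.univ.filter fun l => w l ≠ 0) (by simp)
        (fun l => if 0 < ∑ i, ψ i * (a i l : ℤ) then
          (lf (fun i => (a i l : ℤ)) : MvPolynomial I ℚ) else 1), ← Finset.prod_filter]
    rw [← h1]
    refine Finset.prod_dvd_prod_of_dvd _ _ fun x _ => ?_
    by_cases hx : 0 < ∑ i, ψ i * (a i x : ℤ)
    · simp [ROO_β, hx]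
    · simp [hx]

/-- the complement of `B` -/
noncomputable def ROO_B (w : σ → ℕ) (s : Finset I) (t0 : I → ℚ) : Finset (ROO_D w s t0) :=
  Finset.univ.filter fun d => Sum.elim (fun _ : {l // w l ≠ 0} => true)
    (Sum.elim (fun _ : {i // i ∉ s} => true) (fun _ : {i // i ∈ Zs t0 0} => false)) d = true

theorem ROO_compl [DecidableEq σ] (a : I → σ → ℕ) (w : σ → ℕ) (s : Finset I) (t0 : I → ℚ) :
    (∏ i ∈ Zs t0 0, X i : MvPolynomial I ℚ) ∣
      ∏ d ∈ (ROO_B w s t0)ᶜ, lf (ROO_β a w s t0 d) := by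
  have h0 : (ROO_B w s t0)ᶜ = Finset.univ.filter fun d => Sum.elim
      (fun _ : {l // w l ≠ 0} => true) (Sum.elim (fun _ : {i // i ∉ s} => true)
        (fun _ : {i // i ∈ Zs t0 0} => false)) d = false := by
    ext d
    simp [ROO_B]
  rw [h0, Finset.prod_filter, Fintype.prod_sum_type, Fintype.prod_sum_type]
  simp only [Sum.elim_inl, Sum.elim_inr, Bool.true_eq_false, if_false, Finset.prod_const_one,
    one_mul, if_true]
  rw [← Finset.prod_coe_sort (Zs t0 0)]
  refine Finset.prod_dvd_prod_of_dvd _ _ fun x _ => ?_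
  simp only [ROO_β, Sum.elim_inr]
  rw [ROO_lf_single]
  exact (dvd_neg).2 dvd_rfl

end Comb

theorem ROO_sum_single {I : Type} [Fintype I] [DecidableEq I] (s : I → Prop) [DecidablePred s]
    (ν : {i // s i} → ℤ) (i : I) :
    ∑ x : {i // s i}, ν x * (if i = x.1 then (-1 : ℤ) else 0) =
      if h : s i then -ν ⟨i, h⟩ else 0 := by
  by_cases h : s i
  · rw [dif_pos h, Finset.sum_eq_single ⟨i, h⟩]
    · simp
    · intro x _ hx
      have : i ≠ x.1 := fun h' => hx (Subtype.ext h'.symm)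
      simp [this]
    · simp
  · rw [dif_neg h]
    refine Finset.sum_eq_zero fun x _ => ?_
    have : i ≠ x.1 := fun h' => h (h' ▸ x.2)
    simp [this]

theorem sRoo (hCof : SCof) (hRcg : SRcg) (hRec : SRec) (hPol : SPol) (hLoc : SLoc)
    (hLem : SLem) : SRoo := by
  classical
  intro σ I _ _ k _ _ a c hc hG w hw hN b hb
  by_contra hne
  obtain ⟨s, hsf, hker, hli, hunit⟩ := hw
  set N : ℕ := Nw a w with hNdef
  set α : ℚ := -((∑ l, w l : ℕ) : ℚ) / (N : ℚ) with hα
  obtain ⟨t0, ht0s, ht0⟩ := ROO_t0 a w s hli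
  have hI : Nonempty I := by
    by_contra hI
    rw [not_nonempty_iff] at hI
    have : Nw a w = 0 := by
      unfold Nw
      simp
      exact hI
    omega
  have hdot : ∀ i ∈ s, dot w (a i) = N := fun i hi => (mem_face_iff a w i).1 (hsf i hi)
  have hNQ : (N : ℚ) ≠ 0 := by exact_mod_cast hN.ne'
  -- the sum of the coordinates of `t0`
  have hsum : ∑ i, t0 i = α := by
    have h1 : ∑ l, (w l : ℚ) * ∑ i, (a i l : ℚ) * t0 i = -((∑ l, w l : ℕ) : ℚ) := by
      push_cast
      rw [← Finset.sum_neg_distrib]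
      refine Finset.sum_congr rfl fun l _ => ?_
      by_cases hl : w l = 0
      · simp [hl]
      · rw [ht0 l hl]
        ring
    have h2 : ∑ l, (w l : ℚ) * ∑ i, (a i l : ℚ) * t0 i = (N : ℚ) * ∑ i, t0 i := by
      simp only [Finset.mul_sum]
      rw [Finset.sum_comm]
      refine Finset.sum_congr rfl fun i _ => ?_
      by_cases hi : i ∈ s
      · have h3 : (dot w (a i) : ℚ) = ∑ l, (w l : ℚ) * (a i l : ℚ) := by simp [dot]
        rw [← hdot i hi, h3, Finset.sum_mul]
        exact Finset.sum_congr rfl fun l _ => by ring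
      · simp [ht0s i hi]
    rw [h1] at h2
    rw [hα, eq_div_iff hNQ]
    linarith
  have hP : ∀ i ∈ Zs t0 0, i ∈ s := by
    intro i hi
    by_contra his
    obtain ⟨m, hm, hm0⟩ := (Finset.mem_filter.1 hi).2
    rw [ht0s i his] at hm
    have : (m : ℚ) = 0 := by linarith
    have : m = 0 := by exact_mod_cast this
    simp [this] at hm0
  -- the recurrence
  set K : ℕ := (Zs t0 0).card + 1 with hK
  obtain ⟨R⟩ := hRec σ I a s α K hker (hRcg σ I k a c hc hG b α K hne (hCof σ I k a c b hb))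
  obtain ⟨J0, hJ0⟩ := hPol σ I a s α K R
  set J : ℕ := J0 + ∑ i, ⌈|t0 i|⌉₊ with hJ
  have hloc := hLoc σ I a s α K R J (hJ0 J (by omega)) t0 hsum
    (Finset.univ.filter fun l => w l ≠ 0) (fun l hl => ht0 l (Finset.mem_filter.1 hl).2)
    (by
      intro i m hm
      have h1 : |t0 i| = m := by rw [hm, abs_neg, abs_of_nonneg (by positivity)]
      have h2 : ⌈|t0 i|⌉₊ = m := by rw [h1, Nat.ceil_natCast]
      have h3 : ⌈|t0 i|⌉₊ ≤ ∑ i, ⌈|t0 i|⌉₊ :=
        Finset.single_le_sum (f := fun i => ⌈|t0 i|⌉₊) (fun _ _ => Nat.zero_le _)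
          (Finset.mem_univ i)
      omega) (by omega)
  set M0 : ℕ := 1 + ∑ δ ∈ R.Dd, (∑ i, (R.φ i : ℤ) * δ i).natAbs with hM0
  set hcf : ROO_D w s t0 → ℕ := Sum.elim (fun l => M0 * w l)
    (Sum.elim (fun i => M0 * (dot w (a i) - N) + R.φ i) (fun _ => 1)) with hhc
  set β := ROO_β a w s t0 with hβ
  set B := ROO_B w s t0 with hB
  -- the vector `h`
  have hh : ∀ i, ∑ d ∈ B, (hcf d : ℤ) * β d i = M0 * N - R.φ i := by
    intro i
    rw [hB, ROO_B, Finset.sum_filter, Fintype.sum_sum_type, Fintype.sum_sum_type]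
    simp only [Sum.elim_inl, Sum.elim_inr, if_true, Bool.false_eq_true, if_false,
      Finset.sum_const_zero, add_zero]
    have h1 : ∑ l : {l // w l ≠ 0}, (hcf (Sum.inl l) : ℤ) * β (Sum.inl l) i =
        M0 * (dot w (a i) : ℤ) := by
      have e1 : ∀ l : {l // w l ≠ 0}, (hcf (Sum.inl l) : ℤ) * β (Sum.inl l) i =
          (M0 : ℤ) * ((w l : ℤ) * (a i l : ℤ)) := by
        intro l
        simp only [hhc, hβ, ROO_β, Sum.elim_inl]
        push_cast
        ring
      rw [Finset.sum_congr rfl fun l _ => e1 l, ← Finset.mul_sum]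
      congr 1
      rw [← Finset.sum_subtype (Finset.univ.filter fun l => w l ≠ 0) (by simp)
        (fun l => (w l : ℤ) * (a i l : ℤ))]
      unfold dot
      push_cast
      refine Finset.sum_filter_of_ne fun l _ hl h0 => hl ?_
      simp [h0]
    have h2 : ∑ x : {i // i ∉ s}, (hcf (Sum.inr (Sum.inl x)) : ℤ) * β (Sum.inr (Sum.inl x)) i =
        if h : i ∉ s then -(hcf (Sum.inr (Sum.inl ⟨i, h⟩)) : ℤ) else 0 := by
      have := ROO_sum_single (fun i => i ∉ s) (fun x => (hcf (Sum.inr (Sum.inl x)) : ℤ)) i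
      rw [← this]
      refine Finset.sum_congr rfl fun x _ => ?_
      simp only [hβ, ROO_β, Sum.elim_inr, Sum.elim_inl]
    rw [h1, h2]
    by_cases his : i ∈ s
    · have : ¬ (i ∉ s) := fun h => h his
      rw [dif_neg this, hdot i his, R.φ0 i his]
      simp
    · rw [dif_pos his]
      have hle : N ≤ dot w (a i) := Nw_le a w i
      simp only [hhc, Sum.elim_inr, Sum.elim_inl]
      push_cast [Nat.cast_sub hle]
      ring
  -- the functionals
  have hψh : ∀ ψ : I → ℤ, ∑ i, ψ i * ∑ d ∈ B, (hcf d : ℤ) * β d i =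
      M0 * N * ∑ i, ψ i - ∑ i, (R.φ i : ℤ) * ψ i := by
    intro ψ
    rw [Finset.mul_sum, ← Finset.sum_sub_distrib]
    refine Finset.sum_congr rfl fun i _ => ?_
    rw [hh]
    ring
  have hZ : ∀ ψ : I → ℤ, ∀ i, (i ∉ s ∨ i ∈ Zs t0 0) → i ∉ Zs t0 ψ → 0 ≤ ψ i := by
    intro ψ i hi hiZ
    rcases hi with hi | hi
    · by_contra h
      push Not at h
      exact hiZ (Finset.mem_filter.2 ⟨Finset.mem_univ _, 0, by simp [ht0s i hi], h⟩)
    · obtain ⟨m, hm, hm0⟩ := (Finset.mem_filter.1 hi).2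
      by_contra h
      push Not at h
      refine hiZ (Finset.mem_filter.2 ⟨Finset.mem_univ _, m, hm, ?_⟩)
      have : (0 : I → ℤ) i = 0 := rfl
      rw [this] at hm0
      omega
  have hneg : ∀ ψ : I → ℤ, ∀ d, d ∉ ROO_S a w s t0 ψ → ∑ i, ψ i * β d i ≤ 0 := by
    intro ψ d hd
    have hd' : ¬ _ := fun h => hd (Finset.mem_filter.2 ⟨Finset.mem_univ d, h⟩)
    rcases d with l | x | x
    · simp only [Sum.elim_inl, decide_eq_true_eq, not_lt] at hd'
      simpa [hβ, ROO_β] using hd'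
    · simp only [Sum.elim_inr, Sum.elim_inl, decide_eq_true_eq] at hd'
      have h1 := hZ ψ x.1 (Or.inl x.2) hd'
      have h2 : ∑ i, ψ i * β (Sum.inr (Sum.inl x)) i = -ψ x.1 := by
        simp [hβ, ROO_β]
      rw [h2]
      omega
    · simp only [Sum.elim_inr, decide_eq_true_eq] at hd'
      have h1 := hZ ψ x.1 (Or.inr x.2) hd'
      have h2 : ∑ i, ψ i * β (Sum.inr (Sum.inr x)) i = -ψ x.1 := by
        simp [hβ, ROO_β]
      rw [h2]
      omega
  set 𝒢 : Set (Finset (ROO_D w s t0)) := {S | ∃ ψ : I → ℤ,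
    0 < ∑ i, ψ i * ∑ d ∈ B, (hcf d : ℤ) * β d i ∧ ∀ d, d ∉ S → ∑ i, ψ i * β d i ≤ 0} with h𝒢
  have hlem := hLem I (ROO_D w s t0) β B ?_ ?_ hcf ?_ 𝒢 (fun S hS => hS)
  · -- contradiction
    apply hlem
    have hgen : ∀ ψ : I → ℤ, 0 < ∑ i, ψ i * ∑ d ∈ B, (hcf d : ℤ) * β d i →
        (∏ i ∈ Zs t0 ψ, X i) * ∏ l ∈ (Finset.univ.filter fun l => w l ≠ 0).filter
          (fun l => 0 < ∑ i, ψ i * (a i l : ℤ)), lf (fun i => (a i l : ℤ)) ∈
          Ideal.span {g : MvPolynomial I ℚ | ∃ S ∈ 𝒢, g = ∏ d ∈ S, lf (β d)} := by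
      intro ψ hψ
      refine Ideal.mem_of_dvd _ (ROO_dvd a w s t0 hP ψ) (Ideal.subset_span ?_)
      exact ⟨ROO_S a w s t0 ψ, ⟨ψ, hψ, hneg ψ⟩, rfl⟩
    refine Ideal.mem_of_dvd _ (ROO_compl a w s t0) ?_
    refine (Ideal.span_le.2 ?_) hloc
    rintro g (⟨κ, hκ, hκ0, hr, rfl⟩ | ⟨δ, hδ, rfl⟩)
    · have hκK := R.hDk κ hκ
      have h1 := hgen κ (by
        rw [hψh, hκK.1]
        have := R.hr κ hκ hκ0 hr
        omega)
      have h2 : (Finset.univ.filter fun l => w l ≠ 0).filter
          (fun l => 0 < ∑ i, κ i * (a i l : ℤ)) = ∅ := by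
        rw [Finset.filter_eq_empty_iff]
        intro l _
        rw [hκK.2 l]
        simp
      rw [h2, Finset.prod_empty, mul_one] at h1
      exact h1
    · refine hgen δ ?_
      rw [hψh, R.hDd δ hδ]
      have h1 : (∑ i, (R.φ i : ℤ) * δ i).natAbs ≤
          ∑ δ ∈ R.Dd, (∑ i, (R.φ i : ℤ) * δ i).natAbs :=
        Finset.single_le_sum (f := fun δ : I → ℤ => (∑ i, (R.φ i : ℤ) * δ i).natAbs)
          (fun _ _ => Nat.zero_le _) hδ
      have h2 : (∑ i, (R.φ i : ℤ) * δ i) < M0 := by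
        have := Int.le_natAbs (a := ∑ i, (R.φ i : ℤ) * δ i)
        omega
      have h3 : (M0 : ℤ) ≤ M0 * N := by
        have : (1 : ℤ) ≤ N := by exact_mod_cast hN
        nlinarith [Int.natCast_nonneg M0]
      rw [mul_one]
      omega
  · -- no nonnegative relations
    intro ν hν
    have hexp : ∀ i, (∑ l : {l // w l ≠ 0}, (ν (Sum.inl l) : ℤ) * (a i l : ℤ)) +
        ((if h : i ∉ s then -(ν (Sum.inr (Sum.inl ⟨i, h⟩)) : ℤ) else 0) +
          (if h : i ∈ Zs t0 0 then -(ν (Sum.inr (Sum.inr ⟨i, h⟩)) : ℤ) else 0)) = 0 := by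
      intro i
      rw [← ROO_sum_single (fun i => i ∉ s) (fun x => (ν (Sum.inr (Sum.inl x)) : ℤ)) i,
        ← ROO_sum_single (fun i => i ∈ Zs t0 0) (fun x => (ν (Sum.inr (Sum.inr x)) : ℤ)) i]
      have h := hν i
      rw [Fintype.sum_sum_type, Fintype.sum_sum_type] at h
      simp only [hβ, ROO_β, Sum.elim_inl, Sum.elim_inr] at h
      have e2 : ∀ (α : Type) (f1 f2 : Fintype α) (F : α → ℤ), (@Finset.univ α f1).sum F =
          (@Finset.univ α f2).sum F := fun α f1 f2 F =>
        Finset.sum_congr (Finset.ext fun x => ⟨fun _ => @Finset.mem_univ _ f2 _,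
          fun _ => @Finset.mem_univ _ f1 _⟩) fun _ _ => rfl
      rw [e2 _ (Subtype.fintype fun i => i ∈ Zs t0 0) (Finset.Subtype.fintype (Zs t0 0))]
      refine (congrArg₂ (· + ·) rfl (congrArg₂ (· + ·) (Finset.sum_congr rfl fun x _ => ?_)
        (Finset.sum_congr rfl fun x _ => ?_))).trans h
      · by_cases hx : i = x.1
        · simp only [if_pos hx]
        · simp only [if_neg hx]
      · by_cases hx : i = x.1
        · simp only [if_pos hx]
        · simp only [if_neg hx]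
    have hl0 : ∀ l : {l // w l ≠ 0}, ν (Sum.inl l) = 0 := by
      by_contra hcon
      push Not at hcon
      obtain ⟨l, hl⟩ := hcon
      have hz : ∀ i ∈ s, i ∉ Zs t0 0 → a i l = 0 := by
        intro i hi hiP
        have h1 := hexp i
        rw [dif_neg (fun h => h hi), dif_neg hiP, add_zero, add_zero] at h1
        have h2 := (Finset.sum_eq_zero_iff_of_nonneg (fun x _ => by positivity)).1 h1 l
          (Finset.mem_univ _)
        have h3 : (ν (Sum.inl l) : ℤ) ≠ 0 := by exact_mod_cast hl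
        have h4 := (mul_eq_zero.1 h2).resolve_left h3
        exact_mod_cast h4
      have hm : ∀ i ∈ Zs t0 0, ∃ m : ℕ, t0 i = -(m : ℚ) ∧ 0 < m := by
        intro i hi
        obtain ⟨m, hm, hm0⟩ := (Finset.mem_filter.1 hi).2
        have h0 : (0 : I → ℤ) i = 0 := rfl
        rw [h0] at hm0
        refine ⟨m.toNat, ?_, by omega⟩
        rw [hm]
        congr 1
        have : ((m.toNat : ℤ) : ℚ) = (m : ℚ) := by
          rw [Int.toNat_of_nonneg hm0.le]
        exact_mod_cast this.symm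
      choose! mm hmm hmm0 using hm
      have h1 : ∑ i ∈ Zs t0 0, a i l * mm i = 1 := by
        have h2 := ht0 l.1 l.2
        have h3 : ∑ i, (a i l : ℚ) * t0 i = ∑ i ∈ Zs t0 0, (a i l : ℚ) * t0 i := by
          symm
          refine Finset.sum_subset (Finset.subset_univ _) fun i _ hi => ?_
          by_cases his : i ∈ s
          · rw [hz i his hi]
            simp
          · rw [ht0s i his]
            simp
        rw [h3] at h2
        have h4 : ∑ i ∈ Zs t0 0, (a i l : ℚ) * t0 i = -((∑ i ∈ Zs t0 0, a i l * mm i : ℕ) : ℚ) := by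
          push_cast
          rw [← Finset.sum_neg_distrib]
          refine Finset.sum_congr rfl fun i hi => ?_
          rw [hmm i hi]
          ring
        rw [h4] at h2
        have h5 : ((∑ i ∈ Zs t0 0, a i l * mm i : ℕ) : ℚ) = 1 := by linarith
        exact_mod_cast h5
      obtain ⟨i, hi, hai⟩ : ∃ i ∈ Zs t0 0, a i l ≠ 0 := by
        by_contra hcon
        push Not at hcon
        rw [Finset.sum_eq_zero fun i hi => by rw [hcon i hi, zero_mul]] at h1
        exact zero_ne_one h1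
      refine hunit l.1 l.2 i (hP i hi) ⟨?_, ?_⟩
      · have h2 : a i l * mm i ≤ 1 := by
          rw [← h1]
          exact Finset.single_le_sum (f := fun i => a i l * mm i) (fun _ _ => Nat.zero_le _) hi
        have h3 := hmm0 i hi
        have h4 : 1 ≤ a i l := Nat.one_le_iff_ne_zero.2 hai
        nlinarith
      · intro i' hi' hne'
        by_cases hi'P : i' ∈ Zs t0 0
        · by_contra h0
          have h2 : a i l * mm i + a i' l * mm i' ≤ 1 := by
            rw [← h1, ← Finset.sum_pair (f := fun i => a i l * mm i) hne'.symm]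
            refine Finset.sum_le_sum_of_subset ?_
            intro x hx
            rcases Finset.mem_insert.1 hx with rfl | hx
            · exact hi
            · rw [Finset.mem_singleton.1 hx]
              exact hi'P
          have h3 := hmm0 i hi
          have h4 := hmm0 i' hi'P
          have h5 : 1 ≤ a i l := Nat.one_le_iff_ne_zero.2 hai
          have h6 : 1 ≤ a i' l := Nat.one_le_iff_ne_zero.2 h0
          have h7 : 1 ≤ a i l * mm i := Nat.one_le_iff_ne_zero.2 (by positivity)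
          have h8 : 1 ≤ a i' l * mm i' := Nat.one_le_iff_ne_zero.2 (by positivity)
          omega
        · exact hz i' hi' hi'P
    have hexp' : ∀ i, (if h : i ∉ s then -(ν (Sum.inr (Sum.inl ⟨i, h⟩)) : ℤ) else 0) +
          (if h : i ∈ Zs t0 0 then -(ν (Sum.inr (Sum.inr ⟨i, h⟩)) : ℤ) else 0) = 0 := by
      intro i
      have h1 := hexp i
      simp only [hl0, Nat.cast_zero, zero_mul, Finset.sum_const_zero, zero_add] at h1
      exact h1
    ext d
    rcases d with l | x | x
    · exact hl0 l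
    · have h1 := hexp' x.1
      rw [dif_pos x.2, dif_neg (fun h => x.2 (hP x.1 h))] at h1
      have h2 : (ν (Sum.inr (Sum.inl x)) : ℤ) = 0 := by
        have : (⟨x.1, x.2⟩ : {i // i ∉ s}) = x := rfl
        rw [this] at h1
        linarith
      exact_mod_cast h2
    · have h1 := hexp' x.1
      rw [dif_neg (fun h => h (hP x.1 x.2)), dif_pos x.2] at h1
      have h2 : (ν (Sum.inr (Sum.inr x)) : ℤ) = 0 := by
        have : (⟨x.1, x.2⟩ : {i // i ∈ Zs t0 0}) = x := rfl
        rw [this] at h1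
        linarith
      exact_mod_cast h2
  · -- independence
    intro ν hνB hν
    have hr0 : ∀ x : {i // i ∈ Zs t0 0}, ν (Sum.inr (Sum.inr x)) = 0 := by
      intro x
      apply hνB
      simp [hB, ROO_B]
    have hexp : ∀ i, (∑ l : {l // w l ≠ 0}, ν (Sum.inl l) * (a i l : ℤ)) +
        (if h : i ∉ s then -ν (Sum.inr (Sum.inl ⟨i, h⟩)) else 0) = 0 := by
      intro i
      rw [← ROO_sum_single (fun i => i ∉ s) (fun x => ν (Sum.inr (Sum.inl x))) i]
      have h := hν i
      rw [Fintype.sum_sum_type, Fintype.sum_sum_type] at h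
      simp only [hβ, ROO_β, Sum.elim_inl, Sum.elim_inr, hr0, zero_mul, Finset.sum_const_zero,
        add_zero] at h
      exact h
    have hl0 : ∀ l : {l // w l ≠ 0}, ν (Sum.inl l) = 0 := by
      intro l
      have h1 := Fintype.linearIndependent_iff.1 hli (fun l => (ν (Sum.inl l) : ℚ)) ?_ l
      · exact_mod_cast h1
      · ext ⟨i, hi⟩
        simp only [Finset.sum_apply, Pi.smul_apply, smul_eq_mul, Pi.zero_apply]
        have h2 := hexp i
        rw [dif_neg (fun h => h hi), add_zero] at h2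
        exact_mod_cast h2
    ext d
    rcases d with l | x | x
    · exact hl0 l
    · have h1 := hexp x.1
      rw [dif_pos x.2] at h1
      simp only [hl0, zero_mul, Finset.sum_const_zero, zero_add] at h1
      have : (⟨x.1, x.2⟩ : {i // i ∉ s}) = x := rfl
      rw [this] at h1
      simpa using h1
    · exact hr0 x
  · -- positivity
    intro d hd
    rcases d with l | x | x
    · simp only [hhc, Sum.elim_inl]
      have := l.2
      have h1 : 0 < w l := Nat.pos_of_ne_zero l.2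
      have h2 : 0 < M0 := by omega
      positivity
    · simp only [hhc, Sum.elim_inl, Sum.elim_inr]
      have := R.φ1 x.1 x.2
      omega
    · simp [hhc]

end Pool.Newt
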